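import Pool.Agent.H.MP_d738f8_co.D

namespace Pool.Agent.Results.MP_d738f8_co.Yes

open Pool.Agent.H.MP_d738f8_co Filter Topology

theorem result (q r : ℕ) (hq : 1 ≤ q) (hr : 2 ≤ r) :
    ∃ φ : ℝ → ℝ, (∀ x, 0 < x → 0 < φ x) ∧ Tendsto φ (𝓝[>] 0) (𝓝 0) ∧
      ∀ (V : Type) [Fintype V] (n s : ℕ) (t : Fin q → ℕ) (H : Finset (Finset V)),
        Fintype.card V = n → 1 ≤ s → s ≤ n → (∀ j, 1 ≤ t j) →
        ((r : ℝ) - 1) * (Finset.univ.sup t : ℕ) + ∑ j, ((t j : ℝ) - 1) + 1 + n * φ (s / n) ≤ n →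
        (∀ e ∈ H, e.card = r) → IsConnector r s H → Arrows H t := by
  obtain ⟨φ, h1, h2, h3⟩ := main q r hq hr
  refine ⟨φ, h1, h2, fun V _ n s t H hn a b c d => ?_⟩
  subst hn
  have s0 : (0 : ℝ) < s := by exact_mod_cast a
  have n0 : (0 : ℝ) < Fintype.card V := by exact_mod_cast lt_of_lt_of_le a b
  exact h3 _ (div_pos s0 n0) V H s t a (by rw [div_mul_cancel₀ _ n0.ne']) c d

end Pool.Agent.Results.MP_d738f8_co.Yes
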